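import Mathlib
import Pool.Agent.H270R2.GEN.Defs
import Pool.Agent.Helper467.FP.P_ep
import Pool.Agent.Helper467.FP.P_exists_fixed
import Pool.Agent.Helper467.FP.P_n2_mul_le
import Pool.Agent.Helper467.FP.P_tau_bounds
import Pool.Agent.Helper467.FP.P_averaging

/-! Dixmier averaging in the 2-norm (task DIX of ROOM GEN). -/

set_option autoImplicit false

open scoped ComplexOrder Topology
open Filter

noncomputable section

namespace Pool.Agent.H270G.T_DIX

open Pool.Agent.H467F Pool.Agent.H735G Pool.Agent.H270G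

variable {A : Type} [CStarAlgebra A] {τ : A →ₗ[ℂ] ℂ}

theorem mem_Zc {x : A} : x ∈ Zc A ↔ ∀ y : A, y * x = x * y := by
  unfold Zc
  rw [StarSubalgebra.mem_centralizer_iff]
  constructor
  · intro h y
    exact (h y (Set.mem_univ y)).1
  · intro h y _
    exact ⟨h y, h _⟩

theorem isW_Zc (h : TW τ) : IsW τ (Zc A) := by
  intro x hx
  rw [mem_Zc]
  intro y
  have key : ∀ ε : ℝ, 0 < ε → n2 τ (y * x - x * y) ≤ ε := by
    intro ε hε
    obtain ⟨z, hz, hz2⟩ := hx (ε / (2 * (‖y‖ + 1))) (by positivity)
    have hzc : y * z = z * y := (mem_Zc.1 hz) y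
    have e : y * x - x * y = y * (x - z) - (x - z) * y := by
      rw [mul_sub, sub_mul, hzc]; abel
    rw [e]
    have h1 := h.n2_sub_le (y * (x - z)) ((x - z) * y)
    have h2 := (n2_mul_le h y (x - z)).1
    have h3 := (n2_mul_le h y (x - z)).2
    have h4 : n2 τ (x - z) * (2 * (‖y‖ + 1)) < ε := by
      rwa [lt_div_iff₀ (by positivity)] at hz2
    have h5 := n2_nonneg τ (x - z)
    nlinarith [norm_nonneg y]
  have h0 : n2 τ (y * x - x * y) = 0 :=
    le_antisymm (le_of_forall_pos_le_add (by simpa using key)) (n2_nonneg _ _)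
  exact sub_eq_zero.1 (h.eq_zero h0)

theorem EZ_conj (h : TW τ) (u : A) (hu : star u * u = 1) (hu' : u * star u = 1) (x : A) :
    EZ τ (star u * x * u) = EZ τ x := by
  have hep := ep h (Zc A) (isW_Zc h)
  symm
  apply hep.unique
  · exact hep.mem x
  · intro s hs
    have hsc : ∀ y : A, y * s = s * y := mem_Zc.1 hs
    have h1 := hep.orth x s hs
    rw [mul_sub, map_sub, sub_eq_zero] at h1 ⊢
    show τ (s * (star u * x * u)) = τ (s * E τ (Zc A) x)
    rw [← h1]
    have e : s * (star u * x * u) = star u * (s * x * u) := by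
      have := hsc (star u)
      calc s * (star u * x * u) = (s * star u) * (x * u) := by noncomm_ring
        _ = star u * (s * x * u) := by rw [← this]; noncomm_ring
    rw [e, h.comm]
    rw [mul_assoc, hu', mul_one]

theorem dix (h : TW τ) (Y T : A) (δ : ℝ) (hδ : 0 < δ) :
    ∃ w : unitary A, (τ (star (w : A) * Y * (w : A) * T)).re ≤ (τ (EZ τ Y * T)).re + δ := by
  by_contra hcon
  push Not at hcon
  have hep := ep h (Zc A) (isW_Zc h)
  have hnt : Nontrivial A := by
    refine ⟨⟨1, 0, ?_⟩⟩
    intro h1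
    have h2 := h.one
    rw [h1, map_zero] at h2
    exact zero_ne_one h2
  set G : Set A := {y : A | ∃ a : A, star a * a = 1 ∧ a * star a = 1 ∧ y = star a * Y * a} with hG
  set C : Set A := convexHull ℝ G with hC
  have hne : C.Nonempty := by
    refine ⟨Y, subset_convexHull ℝ G ⟨1, ?_, ?_, ?_⟩⟩ <;> simp
  have hR : ∀ y ∈ C, ‖y‖ ≤ ‖Y‖ := by
    have h1 : C ⊆ Metric.closedBall (0 : A) ‖Y‖ := by
      apply convexHull_min
      · rintro y ⟨a, ha1, ha2, rfl⟩
        rw [mem_closedBall_zero_iff]
        have hu : a ∈ unitary A := Unitary.mem_iff.2 ⟨ha1, ha2⟩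
        have h2 : ‖a‖ = 1 := CStarRing.norm_of_mem_unitary hu
        calc ‖star a * Y * a‖ ≤ ‖star a * Y‖ * ‖a‖ := norm_mul_le _ _
          _ ≤ (‖star a‖ * ‖Y‖) * ‖a‖ :=
            mul_le_mul_of_nonneg_right (norm_mul_le _ _) (norm_nonneg _)
          _ = ‖Y‖ := by rw [norm_star, h2]; ring
      · exact convex_closedBall _ _
    intro y hy
    exact mem_closedBall_zero_iff.1 (h1 hy)
  have hEC : ∀ y ∈ C, EZ τ y = EZ τ Y := by
    have h1 : C ⊆ {y | EZ τ y = EZ τ Y} := by
      apply convexHull_min
      · rintro y ⟨a, ha1, ha2, rfl⟩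
        exact EZ_conj h a ha1 ha2 Y
      · intro y hy w hw p q _ _ hpq
        have hy' : EZ τ y = EZ τ Y := hy
        have hw' : EZ τ w = EZ τ Y := hw
        show EZ τ (p • y + q • w) = EZ τ Y
        have e1 : EZ τ (p • y + q • w) = (p : ℂ) • EZ τ y + (q : ℂ) • EZ τ w := by
          rw [← Complex.coe_smul, ← Complex.coe_smul]
          unfold EZ
          rw [hep.add, hep.smul, hep.smul]
        rw [e1, hy', hw', ← add_smul, ← Complex.ofReal_add, hpq, Complex.ofReal_one, one_smul]
    exact h1
  have hTC : ∀ y ∈ C, (τ (EZ τ Y * T)).re + δ ≤ (τ (y * T)).re := by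
    have h1 : C ⊆ {y | (τ (EZ τ Y * T)).re + δ ≤ (τ (y * T)).re} := by
      apply convexHull_min
      · rintro y ⟨a, ha1, ha2, rfl⟩
        exact (hcon ⟨a, Unitary.mem_iff.2 ⟨ha1, ha2⟩⟩).le
      · intro y hy w hw p q hp hq hpq
        have hy' : (τ (EZ τ Y * T)).re + δ ≤ (τ (y * T)).re := hy
        have hw' : (τ (EZ τ Y * T)).re + δ ≤ (τ (w * T)).re := hw
        show (τ (EZ τ Y * T)).re + δ ≤ (τ ((p • y + q • w) * T)).re
        have e1 : (τ ((p • y + q • w) * T)).re = p * (τ (y * T)).re + q * (τ (w * T)).re := by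
          rw [← Complex.coe_smul, ← Complex.coe_smul, add_mul, smul_mul_assoc, smul_mul_assoc,
            map_add, map_smul, map_smul, Complex.add_re, smul_eq_mul, smul_eq_mul,
            Complex.re_ofReal_mul, Complex.re_ofReal_mul]
        rw [e1]
        calc (τ (EZ τ Y * T)).re + δ = p * ((τ (EZ τ Y * T)).re + δ) +
              q * ((τ (EZ τ Y * T)).re + δ) := by rw [← add_mul, hpq, one_mul]
          _ ≤ _ := add_le_add (mul_le_mul_of_nonneg_left hy' hp) (mul_le_mul_of_nonneg_left hw' hq)
    exact h1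
  obtain ⟨z, hzC, -, hfix⟩ := exists_fixed h C hne (convex_convexHull ℝ G) ‖Y‖ hR
  have hcomm : ∀ a : A, UC (⊤ : StarSubalgebra ℂ A) 1 a → a * z = z * a := by
    intro a ha
    obtain ⟨-, ha1, ha2⟩ := ha
    have h1 := hfix ((LinearMap.mulRight ℂ (star a)).comp (LinearMap.mulLeft ℂ a)) ?_ ?_
    · have h2 : a * z * star a = z := h1
      calc a * z = a * z * (star a * a) := by rw [ha1, mul_one]
        _ = (a * z * star a) * a := by rw [mul_assoc (a * z)]
        _ = z * a := by rw [h2]
    · intro y
      show n2 τ (a * y * star a) = n2 τ y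
      unfold n2
      have h2 : star (a * y * star a) * (a * y * star a) = a * (star y * y * star a) := by
        rw [star_mul, star_mul, star_star]
        calc a * (star y * star a) * (a * y * star a)
            = a * star y * (star a * a) * y * star a := by noncomm_ring
          _ = a * (star y * y * star a) := by rw [ha1, mul_one]; noncomm_ring
      rw [h2, h.comm, mul_assoc, ha1, mul_one]
    · intro y hy
      have h2 : C ⊆ {y | ((LinearMap.mulRight ℂ (star a)).comp (LinearMap.mulLeft ℂ a)) y ∈ C} := by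
        apply convexHull_min
        · rintro y ⟨b, hb1, hb2, rfl⟩
          apply subset_convexHull ℝ G
          refine ⟨b * star a, ?_, ?_, ?_⟩
          · rw [star_mul, star_star]
            calc a * star b * (b * star a) = a * (star b * b) * star a := by noncomm_ring
              _ = 1 := by rw [hb1, mul_one, ha2]
          · rw [star_mul, star_star]
            calc b * star a * (a * star b) = b * (star a * a) * star b := by noncomm_ring
              _ = 1 := by rw [ha1, mul_one, hb2]
          · show a * (star b * Y * b) * star a = star (b * star a) * Y * (b * star a)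
            rw [star_mul, star_star]
            noncomm_ring
        · intro y hy w hw p q hp hq hpq
          have hy' : a * y * star a ∈ C := hy
          have hw' : a * w * star a ∈ C := hw
          show a * (p • y + q • w) * star a ∈ C
          have h3 := convex_convexHull ℝ G hy' hw' hp hq hpq
          rw [mul_add, add_mul, mul_smul_comm, mul_smul_comm, smul_mul_assoc, smul_mul_assoc]
          exact h3
      exact h2 hy
  have htop : IsW τ (⊤ : StarSubalgebra ℂ A) := fun x _ => StarSubalgebra.mem_top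
  have hzc : z ∈ Zc A := by
    rw [mem_Zc]
    intro y
    exact (comm_of_comm_unitary h ⊤ htop z hcomm y StarSubalgebra.mem_top).symm
  have hEz : EZ τ z = z := hep.of_mem z hzc
  have hEzY : EZ τ z = EZ τ Y := by
    have key : ∀ ε : ℝ, 0 < ε → n2 τ (EZ τ z - EZ τ Y) ≤ ε := by
      intro ε hε
      obtain ⟨y, hy, hy2⟩ := hzC ε hε
      rw [← hEC y hy]
      have h1 : EZ τ z - EZ τ y = EZ τ (z - y) := (hep.sub z y).symm
      rw [h1]
      exact (hep.n2_le (z - y)).trans hy2.le
    have h0 : n2 τ (EZ τ z - EZ τ Y) = 0 :=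
      le_antisymm (le_of_forall_pos_le_add (by simpa using key)) (n2_nonneg _ _)
    exact sub_eq_zero.1 (h.eq_zero h0)
  have hzY : z = EZ τ Y := by rw [← hEz, hEzY]
  have hfin : (τ (EZ τ Y * T)).re + δ ≤ (τ (z * T)).re := by
    refine le_of_forall_pos_le_add ?_
    intro ε hε
    obtain ⟨y, hy, hy2⟩ := hzC (ε / (n2 τ T + 1)) (div_pos hε (by linarith [n2_nonneg τ T]))
    have h1 := hTC y hy
    have h2 : (τ (y * T)).re - (τ (z * T)).re ≤ ε := by
      rw [← Complex.sub_re, ← map_sub, ← sub_mul]
      refine (Complex.re_le_norm _).trans ((h.cauchy' _ _).trans ?_)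
      rw [n2_sub_comm]
      have h3 := n2_nonneg τ T
      have h4 := n2_nonneg τ (z - y)
      have h5 : n2 τ (z - y) * (n2 τ T + 1) < ε := by
        rwa [lt_div_iff₀ (by linarith)] at hy2
      nlinarith
    linarith
  rw [← hzY] at hfin
  linarith

end Pool.Agent.H270G.T_DIX
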